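import Mathlib

/-!
MP_28bdbe_gt, Q1: no convex body near the square `|3x+y| ≤ r, |-x+3y| ≤ r` (or near any
translate or dilate of it) is a superlevel set of a sum of four ridge functions with the
directions `(1,0), (0,1), (2,1)/√5, (-1,2)/√5`.
-/

set_option autoImplicit false

namespace Pool.Agent.Results.MP_28bdbe_gt.NoRidgeForm

/-- The Euclidean plane. -/
abbrev E := EuclideanSpace ℝ (Fin 2)

/-- The four directions `(1,0)`, `(0,1)`, `(2,1)`, `(-1,2)`, normalised to unit length. -/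
noncomputable def dir : Fin 4 → E :=
  ![!₂[1, 0], !₂[0, 1], (Real.sqrt 5)⁻¹ • !₂[2, 1], (Real.sqrt 5)⁻¹ • !₂[-1, 2]]

/-- `f` is of the form `g(⟨x, v⟩)`, with any function `g : ℝ → ℝ` (not assumed measurable). -/
def IsRidge (f : E → ℝ) (v : E) : Prop := ∃ g : ℝ → ℝ, ∀ x : E, f x = g (inner ℝ x v)

/-- The square with centre `c` cut out by `|3(x₀-c₀)+(x₁-c₁)| ≤ r`, `|-(x₀-c₀)+3(x₁-c₁)| ≤ r`. -/
def sq (c : E) (r : ℝ) : Set E :=
  {x | |3 * (x 0 - c 0) + (x 1 - c 1)| ≤ r ∧ |-(x 0 - c 0) + 3 * (x 1 - c 1)| ≤ r}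

theorem dir_norm (i : Fin 4) : ‖dir i‖ = 1 := by
  have h5 : (0 : ℝ) ≤ 5 := by norm_num
  have hs : Real.sqrt 5 ≠ 0 := by positivity
  have h : Real.sqrt 5 * Real.sqrt 5 = 5 := Real.mul_self_sqrt h5
  fin_cases i
  · simp [dir, EuclideanSpace.norm_eq]
  · simp [dir, EuclideanSpace.norm_eq]
  · simp only [dir, Fin.reduceFinMk, Matrix.cons_val, norm_smul, norm_inv, Real.norm_eq_abs,
      EuclideanSpace.norm_eq, Fin.sum_univ_two]
    norm_num
    rw [abs_of_nonneg (Real.sqrt_nonneg 5), inv_mul_cancel₀ hs]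
  · simp only [dir, Fin.reduceFinMk, Matrix.cons_val, norm_smul, norm_inv, Real.norm_eq_abs,
      EuclideanSpace.norm_eq, Fin.sum_univ_two]
    norm_num
    rw [abs_of_nonneg (Real.sqrt_nonneg 5), inv_mul_cancel₀ hs]

theorem sq_convex (c : E) (r : ℝ) : Convex ℝ (sq c r) := by
  rintro x ⟨h1, h2⟩ y ⟨h3, h4⟩ a b ha hb hab
  have hb' : b = 1 - a := by linarith
  subst hb'
  rw [abs_le] at h1 h2 h3 h4
  obtain ⟨h1, h1'⟩ := h1
  obtain ⟨h2, h2'⟩ := h2
  obtain ⟨h3, h3'⟩ := h3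
  obtain ⟨h4, h4'⟩ := h4
  refine ⟨?_, ?_⟩ <;> rw [abs_le] <;> constructor <;>
    simp only [PiLp.add_apply, PiLp.smul_apply, smul_eq_mul] <;> nlinarith

theorem cont1 (c : E) : Continuous fun x : E => |3 * (x 0 - c 0) + (x 1 - c 1)| := by
  fun_prop

theorem cont2 (c : E) : Continuous fun x : E => |-(x 0 - c 0) + 3 * (x 1 - c 1)| := by
  fun_prop

theorem sq_closed (c : E) (r : ℝ) : IsClosed (sq c r) := by
  apply IsClosed.inter
  · exact isClosed_le (cont1 c) continuous_const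
  · exact isClosed_le (cont2 c) continuous_const

theorem sq_compact (c : E) (r : ℝ) : IsCompact (sq c r) := by
  apply Metric.isCompact_of_isClosed_isBounded (sq_closed c r)
  rw [Metric.isBounded_iff_subset_closedBall c]
  refine ⟨2 * |r|, ?_⟩
  rintro x ⟨h1, h2⟩
  have h1' := abs_le.1 (h1.trans (le_abs_self r))
  have h2' := abs_le.1 (h2.trans (le_abs_self r))
  rw [Metric.mem_closedBall, EuclideanSpace.dist_eq, Fin.sum_univ_two]
  apply Real.sqrt_le_iff.2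
  refine ⟨by positivity, ?_⟩
  rw [Real.dist_eq, Real.dist_eq, sq_abs, sq_abs]
  have hr : 0 ≤ |r| := abs_nonneg r
  have a1 : -|r| ≤ x 0 - c 0 := by linarith
  have a2 : x 0 - c 0 ≤ |r| := by linarith
  have a3 : -|r| ≤ x 1 - c 1 := by linarith
  have a4 : x 1 - c 1 ≤ |r| := by linarith
  nlinarith

theorem sq_interior (c : E) {r : ℝ} (hr : 0 < r) : (interior (sq c r)).Nonempty := by
  refine ⟨c, ?_⟩
  rw [mem_interior]
  refine ⟨{x | |3 * (x 0 - c 0) + (x 1 - c 1)| < r} ∩ {x | |-(x 0 - c 0) + 3 * (x 1 - c 1)| < r},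
    ?_, ?_, ?_⟩
  · rintro p ⟨h1, h2⟩
    exact ⟨le_of_lt h1, le_of_lt h2⟩
  · apply IsOpen.inter
    · exact isOpen_lt (cont1 c) continuous_const
    · exact isOpen_lt (cont2 c) continuous_const
  · simp [hr]

/-- **Disproof of Q1, robust form.** The directions are unit vectors and the squares `sq c r` with
`r > 0` are convex bodies; and whenever a set `K` lies between `sq c r` and a square `sq c s` with
`s < 1.1 r`, then `K` is not `{f₁ + f₂ + f₃ + f₄ ≥ 0}` for any functions `fᵢ = gᵢ(⟨·, vᵢ⟩)`,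
measurable or not. -/
theorem result :
    (∀ i, ‖dir i‖ = 1) ∧
    (∀ (c : E) (r : ℝ), 0 < r →
      Convex ℝ (sq c r) ∧ IsCompact (sq c r) ∧ (interior (sq c r)).Nonempty) ∧
    ∀ (c : E) (r s : ℝ), 0 < r → s < 11 / 10 * r → ∀ K : Set E, sq c r ⊆ K → K ⊆ sq c s →
      ∀ f : Fin 4 → E → ℝ, (∀ i, IsRidge (f i) (dir i)) → K ≠ {x | 0 ≤ ∑ i, f i x} := by
  refine ⟨dir_norm, fun c r hr => ⟨sq_convex c r, sq_compact c r, sq_interior c hr⟩, ?_⟩
  intro c r s hr hs K h1 h2 f hf hK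
  obtain ⟨g₀, h₀⟩ := hf 0
  obtain ⟨g₁, h₁⟩ := hf 1
  obtain ⟨g₂, h₂'⟩ := hf 2
  obtain ⟨g₃, h₃⟩ := hf 3
  let p : ℝ → ℝ → E := fun x y => !₂[c 0 + r / 10 * x, c 1 + r / 10 * y]
  let G₀ : ℝ → ℝ := fun t => g₀ (c 0 + r / 10 * t)
  let G₁ : ℝ → ℝ := fun t => g₁ (c 1 + r / 10 * t)
  let G₂ : ℝ → ℝ := fun t => g₂ ((Real.sqrt 5)⁻¹ * (2 * c 0 + c 1 + r / 10 * t))
  let G₃ : ℝ → ℝ := fun t => g₃ ((Real.sqrt 5)⁻¹ * (-c 0 + 2 * c 1 + r / 10 * t))
  have hF : ∀ x y : ℝ, ∑ i, f i (p x y) = G₀ x + G₁ y + G₂ (2 * x + y) + G₃ (-x + 2 * y) := by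
    intro x y
    rw [Fin.sum_univ_four, h₀, h₁, h₂', h₃]
    have e0 : inner ℝ (p x y) (dir 0) = c 0 + r / 10 * x := by
      simp [dir, p, PiLp.inner_apply, Fin.sum_univ_two]
    have e1 : inner ℝ (p x y) (dir 1) = c 1 + r / 10 * y := by
      simp [dir, p, PiLp.inner_apply, Fin.sum_univ_two]
    have e2 : inner ℝ (p x y) (dir 2) =
        (Real.sqrt 5)⁻¹ * (2 * c 0 + c 1 + r / 10 * (2 * x + y)) := by
      simp [dir, p, PiLp.inner_apply, Fin.sum_univ_two]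
      ring
    have e3 : inner ℝ (p x y) (dir 3) =
        (Real.sqrt 5)⁻¹ * (-c 0 + 2 * c 1 + r / 10 * (-x + 2 * y)) := by
      simp [dir, p, PiLp.inner_apply, Fin.sum_univ_two]
      ring
    rw [e0, e1, e2, e3]
  have pin : ∀ x y : ℝ, |3 * x + y| ≤ 10 → |-x + 3 * y| ≤ 10 →
      0 ≤ G₀ x + G₁ y + G₂ (2 * x + y) + G₃ (-x + 2 * y) := by
    intro x y hx hy
    rw [← hF]
    have hm : p x y ∈ sq c r := by
      have e1 : 3 * (p x y 0 - c 0) + (p x y 1 - c 1) = r / 10 * (3 * x + y) := by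
        simp [p]; ring
      have e2 : -(p x y 0 - c 0) + 3 * (p x y 1 - c 1) = r / 10 * (-x + 3 * y) := by
        simp [p]; ring
      refine ⟨?_, ?_⟩
      · rw [e1, abs_mul, abs_of_pos (by positivity : 0 < r / 10)]
        nlinarith
      · rw [e2, abs_mul, abs_of_pos (by positivity : 0 < r / 10)]
        nlinarith
    have := h1 hm
    rw [hK] at this
    exact this
  have pout : ∀ x y : ℝ, (11 ≤ |3 * x + y| ∨ 11 ≤ |-x + 3 * y|) →
      G₀ x + G₁ y + G₂ (2 * x + y) + G₃ (-x + 2 * y) < 0 := by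
    intro x y hxy
    rw [← hF]
    by_contra hc
    have hm : p x y ∈ K := by
      rw [hK]
      exact not_lt.1 hc
    obtain ⟨h3, h4⟩ := h2 hm
    have e1 : 3 * (p x y 0 - c 0) + (p x y 1 - c 1) = r / 10 * (3 * x + y) := by
      simp [p]; ring
    have e2 : -(p x y 0 - c 0) + 3 * (p x y 1 - c 1) = r / 10 * (-x + 3 * y) := by
      simp [p]; ring
    rw [e1, abs_mul, abs_of_pos (by positivity : 0 < r / 10)] at h3
    rw [e2, abs_mul, abs_of_pos (by positivity : 0 < r / 10)] at h4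
    rcases hxy with h | h
    · nlinarith
    · nlinarith
  have a1 := pin (-4) 2 (by norm_num) (by norm_num)
  have a2 := pin (-3) (-1) (by norm_num) (by norm_num)
  have a3 := pin (-2) (-4) (by norm_num) (by norm_num)
  have a4 := pin (-1) 3 (by norm_num) (by norm_num)
  have a5 := pin 1 (-3) (by norm_num) (by norm_num)
  have a6 := pin 2 4 (by norm_num) (by norm_num)
  have a7 := pin 3 1 (by norm_num) (by norm_num)
  have a8 := pin 4 (-2) (by norm_num) (by norm_num)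
  have b1 := pout (-4) 1 (by norm_num)
  have b2 := pout (-3) (-2) (by norm_num)
  have b3 := pout (-2) 3 (by norm_num)
  have b4 := pout (-1) (-4) (by norm_num)
  have b5 := pout 1 4 (by norm_num)
  have b6 := pout 2 (-3) (by norm_num)
  have b7 := pout 3 2 (by norm_num)
  have b8 := pout 4 (-1) (by norm_num)
  norm_num at a1 a2 a3 a4 a5 a6 a7 a8 b1 b2 b3 b4 b5 b6 b7 b8
  linarith

end Pool.Agent.Results.MP_28bdbe_gt.NoRidgeForm
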